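import Mathlib
import Pool.Agent.N912.PY.Stm

set_option autoImplicit false

/-!
# Project PY (helper912), part VAN (helper130): the linear forms
-/

namespace Pool.Agent.N130.PY

open Finset Filter Pool.Agent.N912.PY
open scoped ComplexConjugate

/-- the four linear forms -/
def ell (h : ℤ) : Fin 4 → ℤ × ℤ → ℤ
  | 0, z => z.1
  | 1, z => z.2
  | 2, z => z.1 - h * z.2
  | 3, z => z.1 + h * z.2

/-- first coefficients of the forms at the product with `π` -/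
def al (h : ℤ) (π : ℤ × ℤ) : Fin 4 → ℤ
  | 0 => π.1
  | 1 => π.2
  | 2 => π.1 - h * π.2
  | 3 => π.1 + h * π.2

/-- second coefficients of the forms at the product with `π` -/
def be (h : ℤ) (π : ℤ × ℤ) : Fin 4 → ℤ
  | 0 => -(h ^ 2 * π.2)
  | 1 => π.1
  | 2 => -(h ^ 2 * π.2) - h * π.1
  | 3 => -(h ^ 2 * π.2) + h * π.1

lemma forall4 {P : Fin 4 → Prop} (h0 : P 0) (h1 : P 1) (h2 : P 2) (h3 : P 3) : ∀ i, P i := by
  intro i
  match i with
  | 0 => exact h0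
  | 1 => exact h1
  | 2 => exact h2
  | 3 => exact h3

lemma ell_pm (h : ℤ) (π w : ℤ × ℤ) (i : Fin 4) :
    ell h i (pm (h ^ 2) π w) = al h π i * w.1 + be h π i * w.2 := by
  revert i
  apply forall4 <;> simp only [ell, al, be, pm] <;> ring

/-- determinants of the forms of one `π` -/
lemma det_same {h : ℤ} (h0 : h ≠ 0) {π : ℤ × ℤ} (hN : π.1 ^ 2 + h ^ 2 * π.2 ^ 2 ≠ 0) :
    ∀ i j : Fin 4, i ≠ j → al h π i * be h π j ≠ al h π j * be h π i := by
  have t1 : h * (π.1 ^ 2 + h ^ 2 * π.2 ^ 2) ≠ 0 := mul_ne_zero h0 hN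
  have t2 : 2 * (h * (π.1 ^ 2 + h ^ 2 * π.2 ^ 2)) ≠ 0 := mul_ne_zero two_ne_zero t1
  apply forall4 <;> apply forall4 <;> intro hij e <;> simp only [al, be] at e <;>
  first
  | exact hij rfl
  | exact hN (by linear_combination e)
  | exact hN (by linear_combination -e)
  | exact t1 (by linear_combination e)
  | exact t1 (by linear_combination -e)
  | exact t2 (by linear_combination e)
  | exact t2 (by linear_combination -e)

/-- determinants of the forms of `π` and `π'` -/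
lemma det_cross {h : ℤ} (h0 : h ≠ 0) {π π' : ℤ × ℤ}
    (hX : π.1 * π'.1 + h ^ 2 * (π.2 * π'.2) ≠ 0) (hY : π.1 * π'.2 - π.2 * π'.1 ≠ 0)
    (hp : π.1 * π'.1 + h ^ 2 * (π.2 * π'.2) + h * (π.1 * π'.2 - π.2 * π'.1) ≠ 0)
    (hm : π.1 * π'.1 + h ^ 2 * (π.2 * π'.2) - h * (π.1 * π'.2 - π.2 * π'.1) ≠ 0) :
    ∀ i j : Fin 4, al h π i * be h π' j ≠ al h π' j * be h π i := by
  set X := π.1 * π'.1 + h ^ 2 * (π.2 * π'.2) with hXd
  set Y := π.1 * π'.2 - π.2 * π'.1 with hYd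
  have t1 : h ^ 2 * Y ≠ 0 := mul_ne_zero (pow_ne_zero 2 h0) hY
  have t2 : h * (X + h * Y) ≠ 0 := mul_ne_zero h0 hp
  have t3 : h * (X - h * Y) ≠ 0 := mul_ne_zero h0 hm
  have t4 : 2 * (h ^ 2 * Y) ≠ 0 := mul_ne_zero two_ne_zero t1
  have t5 : 2 * (h * X) ≠ 0 := mul_ne_zero two_ne_zero (mul_ne_zero h0 hX)
  apply forall4 <;> apply forall4 <;> intro e <;> simp only [al, be] at e <;>
  first
  | exact hX (by rw [hXd]; linear_combination e)
  | exact hX (by rw [hXd]; linear_combination -e)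
  | exact hY (by rw [hYd]; linear_combination e)
  | exact hY (by rw [hYd]; linear_combination -e)
  | exact hp (by rw [hXd, hYd]; linear_combination e)
  | exact hp (by rw [hXd, hYd]; linear_combination -e)
  | exact hm (by rw [hXd, hYd]; linear_combination e)
  | exact hm (by rw [hXd, hYd]; linear_combination -e)
  | exact t1 (by rw [hYd]; linear_combination e)
  | exact t1 (by rw [hYd]; linear_combination -e)
  | exact t2 (by rw [hXd, hYd]; linear_combination e)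
  | exact t2 (by rw [hXd, hYd]; linear_combination -e)
  | exact t3 (by rw [hXd, hYd]; linear_combination e)
  | exact t3 (by rw [hXd, hYd]; linear_combination -e)
  | exact t4 (by rw [hYd]; linear_combination e)
  | exact t4 (by rw [hYd]; linear_combination -e)
  | exact t5 (by rw [hXd]; linear_combination e)
  | exact t5 (by rw [hXd]; linear_combination -e)

/-- the product of two different primes is no square, and no twice a square -/
lemma no_sq {p q : ℕ} (hp : p.Prime) (hq : q.Prime) (hpq : p ≠ q) (e : ℤ) (he : ¬ (p : ℤ) ∣ e) (t : ℤ) :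
    e * t ^ 2 ≠ (p : ℤ) * q := by
  intro h
  have hp' : Prime (p : ℤ) := Nat.prime_iff_prime_int.1 hp
  have h1 : (p : ℤ) ∣ e * t ^ 2 := ⟨q, h⟩
  have h2 : (p : ℤ) ∣ t := hp'.dvd_of_dvd_pow ((hp'.dvd_or_dvd h1).resolve_left he)
  obtain ⟨s, rfl⟩ := h2
  have h3 : (p : ℤ) * (e * p * s ^ 2) = p * q := by rw [← h]; ring
  have h4 := mul_left_cancel₀ hp'.ne_zero h3
  have h5 : (p : ℤ) ∣ q := ⟨e * s ^ 2, by rw [← h4]; ring⟩
  have h6 : p ∣ q := by exact_mod_cast h5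
  exact hpq ((Nat.prime_dvd_prime_iff_eq hp hq).1 h6)

lemma nn_cast (h : ℤ) (π : ℤ × ℤ) : (nn (h ^ 2) π : ℤ) = π.1 ^ 2 + h ^ 2 * π.2 ^ 2 := by
  unfold nn
  rw [Int.natAbs_of_nonneg (by positivity)]

/-- all the cross determinants are nonzero -/
lemma det_pair {h : ℤ} (h0 : h ≠ 0) {π π' : ℤ × ℤ} (hp : (nn (h ^ 2) π).Prime) (hq : (nn (h ^ 2) π').Prime)
    (hpq : nn (h ^ 2) π ≠ nn (h ^ 2) π') (h2 : 2 < nn (h ^ 2) π) :
    ∀ i j : Fin 4, al h π i * be h π' j ≠ al h π' j * be h π i := by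
  set p := nn (h ^ 2) π with hpd
  set q := nn (h ^ 2) π' with hqd
  have e1 : (p : ℤ) = π.1 ^ 2 + h ^ 2 * π.2 ^ 2 := nn_cast h π
  have e2 : (q : ℤ) = π'.1 ^ 2 + h ^ 2 * π'.2 ^ 2 := nn_cast h π'
  have n1 : ¬ (p : ℤ) ∣ 1 := by
    intro hd
    have := Int.le_of_dvd one_pos hd
    omega
  have n2 : ¬ (p : ℤ) ∣ 2 := by
    intro hd
    have := Int.le_of_dvd two_pos hd
    omega
  have key : (π.1 * π'.1 + h ^ 2 * (π.2 * π'.2)) ^ 2 + h ^ 2 * (π.1 * π'.2 - π.2 * π'.1) ^ 2 = (p : ℤ) * q := by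
    rw [e1, e2]; ring
  apply det_cross h0
  · intro hX
    rw [hX] at key
    exact no_sq hp hq hpq 1 n1 (h * (π.1 * π'.2 - π.2 * π'.1)) (by linear_combination key)
  · intro hY
    rw [hY] at key
    exact no_sq hp hq hpq 1 n1 (π.1 * π'.1 + h ^ 2 * (π.2 * π'.2)) (by linear_combination key)
  · intro hs
    have hX : π.1 * π'.1 + h ^ 2 * (π.2 * π'.2) = -(h * (π.1 * π'.2 - π.2 * π'.1)) := by linear_combination hs
    rw [hX] at key
    exact no_sq hp hq hpq 2 n2 (h * (π.1 * π'.2 - π.2 * π'.1)) (by linear_combination key)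
  · intro hs
    have hX : π.1 * π'.1 + h ^ 2 * (π.2 * π'.2) = h * (π.1 * π'.2 - π.2 * π'.1) := by linear_combination hs
    rw [hX] at key
    exact no_sq hp hq hpq 2 n2 (h * (π.1 * π'.2 - π.2 * π'.1)) (by linear_combination key)

/-- the region: first coefficients -/
def rs (b₀ : ℤ) : Fin 4 → ℤ
  | 0 => 0
  | 1 => 0
  | 2 => -1
  | 3 => b₀

/-- the region: second coefficients -/
def rt (R a₀ : ℤ) : Fin 4 → ℤ
  | 0 => -1
  | 1 => 1
  | 2 => R
  | 3 => -a₀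

/-- the region: constants -/
def rc : Fin 4 → ℤ
  | 0 => 0
  | 1 => 1
  | 2 => 0
  | 3 => 0

/-- the region -/
def Rg (R a₀ b₀ : ℤ) (x : ℕ) (z : ℤ × ℤ) : Prop :=
  ∀ j, rs b₀ j * z.1 + rt R a₀ j * z.2 ≤ rc j * x

lemma Rg_iff (R a₀ b₀ : ℤ) (x : ℕ) (z : ℤ × ℤ) :
    Rg R a₀ b₀ x z ↔ 0 ≤ z.2 ∧ z.2 ≤ x ∧ R * z.2 ≤ z.1 ∧ b₀ * z.1 ≤ a₀ * z.2 := by
  constructor
  · intro h
    have h0 := h 0
    have h1 := h 1
    have h2 := h 2
    have h3 := h 3
    simp only [rs, rt, rc] at h0 h1 h2 h3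
    refine ⟨by linarith, by linarith, by linarith, by linarith⟩
  · rintro ⟨h0, h1, h2, h3⟩
    apply forall4 <;> simp only [rs, rt, rc] <;> linarith

lemma rg_pm (R a₀ b₀ h : ℤ) (π w : ℤ × ℤ) (j : Fin 4) :
    rs b₀ j * (pm (h ^ 2) π w).1 + rt R a₀ j * (pm (h ^ 2) π w).2 =
      (rs b₀ j * π.1 + rt R a₀ j * π.2) * w.1 + (rt R a₀ j * π.1 - rs b₀ j * h ^ 2 * π.2) * w.2 := by
  simp only [pm]
  ring

/-- the theorem on linear forms for arbitrary finite index sets -/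
lemma lf2_fin (hL : S_LF2) {ι κ : Type} [Fintype ι] [Fintype κ] (α β : ι → ℤ)
    (h0 : ∀ i, α i ≠ 0 ∨ β i ≠ 0) (h1 : ∀ i j, i ≠ j → α i * β j ≠ α j * β i) (f : ι → ℕ → ℂ)
    (hf : ∀ i, IsMult (f i)) (hF : ∃ i, FNP (f i)) (A B C : κ → ℤ) (Λ : ℕ) (ε : ℝ) (hε : 0 < ε) :
    ∃ K : ℕ, ∀ x : ℕ, K ≤ x → ∀ [DecidablePred fun z : ℤ × ℤ => ∀ j, A j * z.1 + B j * z.2 ≤ C j * x],
      ‖∑ z ∈ (bx Λ x).filter (fun z => ∀ j, A j * z.1 + B j * z.2 ≤ C j * x),
        ∏ i, f i (α i * z.1 + β i * z.2).natAbs‖ ≤ ε * (x : ℝ) ^ 2 := by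
  classical
  set e := (Fintype.equivFin ι).symm with he
  set e' := (Fintype.equivFin κ).symm with he'
  obtain ⟨i0, hi0⟩ := hF
  obtain ⟨K, hK⟩ := hL _ (fun i => α (e i)) (fun i => β (e i)) (fun i => h0 _)
    (fun i j hij => h1 _ _ (fun h => hij (e.injective h))) (fun i => f (e i)) (fun i => hf _)
    ⟨e.symm i0, by simpa using hi0⟩ _ (fun j => A (e' j)) (fun j => B (e' j)) (fun j => C (e' j)) Λ ε hε
  refine ⟨K, fun x hx _ => ?_⟩
  have h2 := hK x hx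
  convert h2 using 3
  · ext z
    simp only [Finset.mem_filter]
    constructor
    · rintro ⟨h3, h4⟩
      exact ⟨h3, fun j => h4 (e' j)⟩
    · rintro ⟨h3, h4⟩
      refine ⟨h3, fun j => ?_⟩
      have := h4 (e'.symm j)
      simpa using this
  · exact (Equiv.prod_comp e (fun i => f i (α i * _ + β i * _).natAbs)).symm

end Pool.Agent.N130.PY
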