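import Mathlib
import Pool.Agent.N130.PY.Forms

set_option autoImplicit false

/-!
# Project PY (helper912), part VAN (helper130): the sums over the plane
-/

namespace Pool.Agent.N130.PY

open Finset Filter Pool.Agent.N912.PY
open scoped ComplexConjugate

open Classical in
/-- the function on the plane -/
noncomputable def gg (h R a₀ b₀ : ℤ) (G : Fin 4 → ℕ → ℂ) (x : ℕ) (z : ℤ × ℤ) : ℂ :=
  if Rg R a₀ b₀ x z then ∏ i, G i (ell h i z).natAbs else 0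

lemma gg_norm {h R a₀ b₀ : ℤ} {G : Fin 4 → ℕ → ℂ} (hG : ∀ i n, ‖G i n‖ ≤ 1) (x : ℕ) (z : ℤ × ℤ) :
    ‖gg h R a₀ b₀ G x z‖ ≤ 1 := by
  classical
  unfold gg
  split_ifs
  · rw [norm_prod]
    exact Finset.prod_le_one (fun _ _ => norm_nonneg _) (fun i _ => hG i _)
  · simp

lemma gg_supp {h : ℤ} {R a₀ b₀ : ℕ} (hb : 1 ≤ b₀) {G : Fin 4 → ℕ → ℂ} (x : ℕ) (z : ℤ × ℤ)
    (hz : z ∉ bx (a₀ + 1) x) : gg h R a₀ b₀ G x z = 0 := by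
  classical
  unfold gg
  rw [if_neg]
  intro hR
  obtain ⟨h0, h1, h2, h3⟩ := (Rg_iff _ _ _ _ _).1 hR
  apply hz
  have hb' : (1 : ℤ) ≤ b₀ := by exact_mod_cast hb
  have hR' : (0 : ℤ) ≤ R := Int.natCast_nonneg R
  have ha' : (0 : ℤ) ≤ a₀ := Int.natCast_nonneg a₀
  have hx' : (0 : ℤ) ≤ x := Int.natCast_nonneg x
  have h4 : 0 ≤ z.1 := le_trans (mul_nonneg hR' h0) h2
  have h5 : z.1 ≤ a₀ * x := by
    have e1 : z.1 ≤ b₀ * z.1 := by nlinarith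
    have e2 : (a₀ : ℤ) * z.2 ≤ a₀ * x := mul_le_mul_of_nonneg_left h1 ha'
    linarith
  have h6 : 0 ≤ (a₀ : ℤ) * x := mul_nonneg ha' hx'
  unfold bx
  rw [Finset.mem_product, Finset.mem_Icc, Finset.mem_Icc]
  push_cast
  refine ⟨⟨by nlinarith, by nlinarith⟩, ⟨by nlinarith, by nlinarith⟩⟩

/-- one pair -/
lemma pair_bound (hL : S_LF2) (h R a₀ b₀ : ℤ) (h0 : h ≠ 0) (G : Fin 4 → ℕ → ℂ) (hGm : ∀ i, IsMult (G i))
    (hF : ∃ i, FNP (G i)) {π π' : ℤ × ℤ} (hp : (nn (h ^ 2) π).Prime) (hq : (nn (h ^ 2) π').Prime)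
    (hne : nn (h ^ 2) π ≠ nn (h ^ 2) π') (h2 : 2 < nn (h ^ 2) π) (h2' : 2 < nn (h ^ 2) π') (Λ : ℕ)
    (δ : ℝ) (hδ : 0 < δ) :
    ∀ᶠ x : ℕ in atTop, ‖∑ w ∈ bx Λ x, gg h R a₀ b₀ G x (pm (h ^ 2) π w) *
      conj (gg h R a₀ b₀ G x (pm (h ^ 2) π' w))‖ ≤ δ * (x : ℝ) ^ 2 := by
  classical
  set P : Fin 2 → ℤ × ℤ := ![π, π'] with hP
  have hP0 : P 0 = π := rfl
  have hP1 : P 1 = π' := rfl
  set F : Fin 2 × Fin 4 → ℕ → ℂ := fun q => if q.1 = 0 then G q.2 else fun n => conj (G q.2 n) with hFd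
  have hpair : ∀ q q' : Fin 2 × Fin 4, q ≠ q' →
      al h (P q.1) q.2 * be h (P q'.1) q'.2 ≠ al h (P q'.1) q'.2 * be h (P q.1) q.2 := by
    have k1 : π.1 ^ 2 + h ^ 2 * π.2 ^ 2 ≠ 0 := by
      rw [← nn_cast]
      exact_mod_cast hp.ne_zero
    have k2 : π'.1 ^ 2 + h ^ 2 * π'.2 ^ 2 ≠ 0 := by
      rw [← nn_cast]
      exact_mod_cast hq.ne_zero
    rintro ⟨s, i⟩ ⟨s', j⟩ hqq
    have hs : s = 0 ∨ s = 1 := by omega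
    have hs' : s' = 0 ∨ s' = 1 := by omega
    rcases hs with rfl | rfl <;> rcases hs' with rfl | rfl
    · exact det_same h0 k1 i j (fun hij => hqq (by rw [hij]))
    · exact det_pair h0 hp hq hne h2 i j
    · exact det_pair h0 hq hp hne.symm h2' i j
    · exact det_same h0 k2 i j (fun hij => hqq (by rw [hij]))
  have hnz : ∀ q : Fin 2 × Fin 4, al h (P q.1) q.2 ≠ 0 ∨ be h (P q.1) q.2 ≠ 0 := by
    intro q
    by_contra hcon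
    push Not at hcon
    obtain ⟨q', hq'⟩ := exists_ne q
    apply hpair q q' (Ne.symm hq')
    rw [hcon.1, hcon.2, zero_mul, mul_zero]
  have hFm : ∀ q, IsMult (F q) := by
    rintro ⟨s, i⟩
    have hs : s = 0 ∨ s = 1 := by omega
    rcases hs with rfl | rfl
    · exact hGm i
    · refine ⟨fun n => ?_, fun m n hmn => ?_⟩
      · show ‖conj (G i n)‖ ≤ 1
        rw [RCLike.norm_conj]
        exact (hGm i).1 n
      · show conj (G i (m * n)) = conj (G i m) * conj (G i n)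
        rw [(hGm i).2 m n hmn, map_mul]
  obtain ⟨i0, hi0⟩ := hF
  obtain ⟨K, hK⟩ := lf2_fin hL (fun q : Fin 2 × Fin 4 => al h (P q.1) q.2) (fun q => be h (P q.1) q.2) hnz hpair F hFm
    ⟨(0, i0), hi0⟩ (fun q : Fin 2 × Fin 4 => rs b₀ q.2 * (P q.1).1 + rt R a₀ q.2 * (P q.1).2)
    (fun q => rt R a₀ q.2 * (P q.1).1 - rs b₀ q.2 * h ^ 2 * (P q.1).2) (fun q => rc q.2) Λ δ hδ
  filter_upwards [eventually_ge_atTop K] with x hx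
  have h3 := hK x hx
  rw [Finset.sum_filter] at h3
  refine le_trans (le_of_eq ?_) h3
  congr 1
  refine Finset.sum_congr rfl fun w _ => ?_
  have hiff : (∀ q : Fin 2 × Fin 4, (rs b₀ q.2 * (P q.1).1 + rt R a₀ q.2 * (P q.1).2) * w.1 +
      (rt R a₀ q.2 * (P q.1).1 - rs b₀ q.2 * h ^ 2 * (P q.1).2) * w.2 ≤ rc q.2 * x) ↔
      Rg R a₀ b₀ x (pm (h ^ 2) π w) ∧ Rg R a₀ b₀ x (pm (h ^ 2) π' w) := by
    constructor
    · intro hq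
      exact ⟨fun j => by rw [rg_pm]; exact hq (0, j), fun j => by rw [rg_pm]; exact hq (1, j)⟩
    · rintro ⟨g1, g2⟩ ⟨s, j⟩
      have hs : s = 0 ∨ s = 1 := by omega
      rcases hs with rfl | rfl
      · have := g1 j
        rw [rg_pm] at this
        exact this
      · have := g2 j
        rw [rg_pm] at this
        exact this
  have hprod : ∏ q : Fin 2 × Fin 4, F q (al h (P q.1) q.2 * w.1 + be h (P q.1) q.2 * w.2).natAbs =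
      (∏ i, G i (ell h i (pm (h ^ 2) π w)).natAbs) * conj (∏ i, G i (ell h i (pm (h ^ 2) π' w)).natAbs) := by
    rw [Fintype.prod_prod_type, Fin.prod_univ_two, map_prod]
    congr 1
    · exact Finset.prod_congr rfl fun i _ => by rw [ell_pm]; rfl
    · exact Finset.prod_congr rfl fun i _ => by rw [ell_pm]; rfl
  by_cases g1 : Rg R a₀ b₀ x (pm (h ^ 2) π w)
  · by_cases g2 : Rg R a₀ b₀ x (pm (h ^ 2) π' w)
    · rw [if_pos (hiff.2 ⟨g1, g2⟩), hprod]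
      unfold gg
      rw [if_pos g1, if_pos g2]
    · rw [if_neg (fun g => g2 (hiff.1 g).2)]
      unfold gg
      rw [if_neg g2, map_zero, mul_zero]
  · rw [if_neg (fun g => g1 (hiff.1 g).1)]
    unfold gg
    rw [if_neg g1, zero_mul]

/-- the sums over the plane are small -/
lemma core (hK : S_KAT) (hGP : S_GP) (hL : S_LF2) (h R a₀ b₀ : ℕ) (h1 : 1 ≤ h) (hb : 1 ≤ b₀)
    (G : Fin 4 → ℕ → ℂ) (hGm : ∀ i, IsMult (G i)) (hF : ∃ i, FNP (G i)) (f₃ : ℕ → ℂ)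
    (hf : ∀ n, ‖f₃ n‖ ≤ 1) (hfm : ∀ m n, 0 < m → 0 < n → f₃ (m * n) = f₃ m * f₃ n) (ε : ℝ) (hε : 0 < ε) :
    ∀ᶠ x : ℕ in atTop, ‖∑ z ∈ bx (a₀ + 1) x, f₃ (nn ((h : ℤ) ^ 2) z) * gg h R a₀ b₀ G x z‖ ≤ ε * (x : ℝ) ^ 2 := by
  classical
  have hc1 : 1 ≤ h ^ 2 := Nat.one_le_pow _ _ h1
  have hcast : ((h ^ 2 : ℕ) : ℤ) = (h : ℤ) ^ 2 := by push_cast; rfl
  obtain ⟨C₀, hC₀, hK'⟩ := hK (h ^ 2) hc1
  set Λ : ℕ := a₀ + 1 with hΛ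
  have hΛ0 : (0 : ℝ) < Λ := by
    rw [hΛ]; positivity
  obtain ⟨𝔓, hPS, hmass⟩ := hGP (h ^ 2) (2 * h ^ 2) hc1 (max 1 ((2 * C₀ * (Λ : ℝ) ^ 2 / ε) ^ 2))
  have hm1 : 1 ≤ mass ((h ^ 2 : ℕ) : ℤ) 𝔓 := (le_max_left _ _).trans hmass
  have hm2 : 2 * C₀ * (Λ : ℝ) ^ 2 / ε ≤ Real.sqrt (mass ((h ^ 2 : ℕ) : ℤ) 𝔓) :=
    Real.le_sqrt_of_sq_le ((le_max_right _ _).trans hmass)
  have hs0 : 0 < Real.sqrt (mass ((h ^ 2 : ℕ) : ℤ) 𝔓) := Real.sqrt_pos.2 (by linarith)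
  obtain ⟨X₀, hX₀⟩ := hK' 𝔓 hPS hm1 Λ (by omega)
  set κ : ℝ := ε / (2 * C₀ * Λ * (𝔓.card + 1)) with hκ
  have hκ0 : 0 < κ := by rw [hκ]; positivity
  have hpairs : ∀ π ∈ 𝔓, ∀ π' ∈ 𝔓.erase π, ∀ᶠ x : ℕ in atTop,
      ‖∑ w ∈ bx (Λ * (h ^ 2 + 1)) x, gg h R a₀ b₀ G x (pm ((h : ℤ) ^ 2) π w) *
      conj (gg h R a₀ b₀ G x (pm ((h : ℤ) ^ 2) π' w))‖ ≤ κ ^ 2 * (x : ℝ) ^ 2 := by
    intro π hπ π' hπ'
    have hπ'' := Finset.mem_of_mem_erase hπ'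
    have hlt : ∀ ϖ ∈ 𝔓, 2 < nn ((h : ℤ) ^ 2) ϖ := by
      intro ϖ hϖ
      have := hPS.large ϖ hϖ
      rw [hcast] at this
      omega
    have hpr : ∀ ϖ ∈ 𝔓, (nn ((h : ℤ) ^ 2) ϖ).Prime := by
      intro ϖ hϖ
      have := hPS.prime ϖ hϖ
      rwa [hcast] at this
    refine pair_bound hL h R a₀ b₀ (by exact_mod_cast (show h ≠ 0 by omega)) G hGm hF (hpr π hπ) (hpr π' hπ'') ?_
      (hlt π hπ) (hlt π' hπ'') _ (κ ^ 2) (by positivity)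
    intro heq
    have := hPS.inj π hπ π' hπ'' (by rw [hcast]; exact heq)
    exact (Finset.ne_of_mem_erase hπ') this.symm
  have hall : ∀ᶠ x : ℕ in atTop, ∀ π ∈ 𝔓, ∀ π' ∈ 𝔓.erase π,
      ‖∑ w ∈ bx (Λ * (h ^ 2 + 1)) x, gg h R a₀ b₀ G x (pm ((h : ℤ) ^ 2) π w) *
      conj (gg h R a₀ b₀ G x (pm ((h : ℤ) ^ 2) π' w))‖ ≤ κ ^ 2 * (x : ℝ) ^ 2 :=
    (Finset.eventually_all 𝔓).2 fun π hπ => (Finset.eventually_all (𝔓.erase π)).2 fun π' hπ' => hpairs π hπ π' hπ'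
  filter_upwards [hall, eventually_ge_atTop X₀] with x g1 g2
  have g3 := hX₀ x g2 f₃ hf hfm (gg h R a₀ b₀ G x) (fun z => gg_norm (fun i n => (hGm i).1 n) x z)
    (fun z hz => gg_supp hb x z hz)
  rw [hcast] at g3
  refine g3.trans ?_
  have hx0 : (0 : ℝ) ≤ x := Nat.cast_nonneg x
  have k1 : C₀ * ((Λ : ℝ) * x) ^ 2 / Real.sqrt (mass ((h : ℤ) ^ 2) 𝔓) ≤ ε / 2 * (x : ℝ) ^ 2 := by
    rw [hcast] at hm2 hs0
    rw [div_le_iff₀ hs0]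
    rw [div_le_iff₀ hε] at hm2
    have e1 : C₀ * ((Λ : ℝ) * x) ^ 2 = (2 * C₀ * (Λ : ℝ) ^ 2) / 2 * (x : ℝ) ^ 2 := by ring
    rw [e1]
    have e2 : (2 * C₀ * (Λ : ℝ) ^ 2) / 2 * (x : ℝ) ^ 2 ≤ (Real.sqrt (mass ((h : ℤ) ^ 2) 𝔓) * ε) / 2 * (x : ℝ) ^ 2 := by
      gcongr
    refine e2.trans (le_of_eq (by ring))
  have k2 : (∑ π ∈ 𝔓, ∑ π' ∈ 𝔓.erase π, ‖∑ w ∈ bx (Λ * (h ^ 2 + 1)) x, gg h R a₀ b₀ G x (pm ((h : ℤ) ^ 2) π w) *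
      conj (gg h R a₀ b₀ G x (pm ((h : ℤ) ^ 2) π' w))‖) ≤ ((𝔓.card + 1) * κ * x) ^ 2 := by
    have e1 : (∑ π ∈ 𝔓, ∑ π' ∈ 𝔓.erase π, ‖∑ w ∈ bx (Λ * (h ^ 2 + 1)) x, gg h R a₀ b₀ G x (pm ((h : ℤ) ^ 2) π w) *
        conj (gg h R a₀ b₀ G x (pm ((h : ℤ) ^ 2) π' w))‖) ≤ ∑ π ∈ 𝔓, ((𝔓.card : ℝ) * (κ ^ 2 * (x : ℝ) ^ 2)) := by
      refine Finset.sum_le_sum fun π hπ => ?_
      refine (Finset.sum_le_sum fun π' hπ' => g1 π hπ π' hπ').trans ?_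
      rw [Finset.sum_const, nsmul_eq_mul]
      apply mul_le_mul_of_nonneg_right _ (by positivity)
      exact_mod_cast Finset.card_le_card (Finset.erase_subset _ _)
    rw [Finset.sum_const, nsmul_eq_mul] at e1
    refine e1.trans ?_
    have hn : (0 : ℝ) ≤ 𝔓.card := Nat.cast_nonneg _
    have e2 : (𝔓.card : ℝ) * (𝔓.card * (κ ^ 2 * (x : ℝ) ^ 2)) = (𝔓.card * κ * x) ^ 2 := by ring
    rw [e2]
    apply pow_le_pow_left₀ (by positivity)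
    gcongr
    linarith
  have k3 : Real.sqrt (∑ π ∈ 𝔓, ∑ π' ∈ 𝔓.erase π, ‖∑ w ∈ bx (Λ * (h ^ 2 + 1)) x,
      gg h R a₀ b₀ G x (pm ((h : ℤ) ^ 2) π w) * conj (gg h R a₀ b₀ G x (pm ((h : ℤ) ^ 2) π' w))‖) ≤
      (𝔓.card + 1) * κ * x := by
    rw [← Real.sqrt_sq (show (0 : ℝ) ≤ (𝔓.card + 1) * κ * x by positivity)]
    exact Real.sqrt_le_sqrt k2
  have k4 : C₀ * ((Λ : ℝ) * x) * ((𝔓.card + 1) * κ * x) = ε / 2 * (x : ℝ) ^ 2 := by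
    rw [hκ]
    field_simp
  have k5 : C₀ * ((Λ : ℝ) * x) * Real.sqrt (∑ π ∈ 𝔓, ∑ π' ∈ 𝔓.erase π, ‖∑ w ∈ bx (Λ * (h ^ 2 + 1)) x,
      gg h R a₀ b₀ G x (pm ((h : ℤ) ^ 2) π w) * conj (gg h R a₀ b₀ G x (pm ((h : ℤ) ^ 2) π' w))‖) ≤
      ε / 2 * (x : ℝ) ^ 2 := by
    rw [← k4]
    apply mul_le_mul_of_nonneg_left k3 (by positivity)
  linarith

end Pool.Agent.N130.PY
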