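import Mathlib
import Pool.Agent.N130.PY.Core

set_option autoImplicit false

/-!
# Project PY (helper912), part PY13, VAN (helper130): the means which vanish
-/

namespace Pool.Agent.N130.PY

open Finset Filter Pool.Agent.N912.PY
open scoped ComplexConjugate

/-- the pairs without the congruence -/
def reg (R a₀ b₀ x : ℕ) : Finset (ℕ × ℕ) :=
  (Icc 1 (a₀ * x) ×ˢ Icc 1 x).filter (fun z => R * z.2 ≤ z.1 ∧ b₀ * z.1 ≤ a₀ * z.2)

lemma emb_inj : Function.Injective (fun z : ℕ × ℕ => (((z.1 : ℤ), (z.2 : ℤ)) : ℤ × ℤ)) := by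
  intro a b h
  have h1 : (a.1 : ℤ) = b.1 := congrArg Prod.fst h
  have h2 : (a.2 : ℤ) = b.2 := congrArg Prod.snd h
  exact Prod.ext (by exact_mod_cast h1) (by exact_mod_cast h2)

/-- pairs of natural numbers as pairs of integers -/
def emb : ℕ × ℕ ↪ ℤ × ℤ := ⟨fun z : ℕ × ℕ => (((z.1 : ℤ), (z.2 : ℤ)) : ℤ × ℤ), emb_inj⟩

lemma nn_emb (h : ℕ) (z : ℕ × ℕ) : nn ((h : ℤ) ^ 2) (emb z) = z.1 ^ 2 + h ^ 2 * z.2 ^ 2 := by
  have : nn ((h : ℤ) ^ 2) (emb z) = ((z.1 : ℤ) ^ 2 + (h : ℤ) ^ 2 * (z.2 : ℤ) ^ 2).natAbs := rfl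
  rw [this, show ((z.1 : ℤ) ^ 2 + (h : ℤ) ^ 2 * (z.2 : ℤ) ^ 2) = ((z.1 ^ 2 + h ^ 2 * z.2 ^ 2 : ℕ) : ℤ) by
    push_cast; rfl, Int.natAbs_natCast]

lemma gg_emb {h R a₀ b₀ : ℕ} (hR : h < R) {G : Fin 4 → ℕ → ℂ} {x : ℕ} {z : ℕ × ℕ} (hz : z ∈ reg R a₀ b₀ x) :
    gg h R a₀ b₀ G x (emb z) = G 0 z.1 * G 1 z.2 * G 2 (z.1 - h * z.2) * G 3 (z.1 + h * z.2) := by
  classical
  unfold reg at hz
  rw [Finset.mem_filter, Finset.mem_product, Finset.mem_Icc, Finset.mem_Icc] at hz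
  obtain ⟨⟨⟨h1, h2⟩, h3, h4⟩, h5, h6⟩ := hz
  unfold gg
  rw [if_pos ((Rg_iff _ _ _ _ _).2 ?_), Fin.prod_univ_four]
  · have hle : h * z.2 ≤ z.1 := (Nat.mul_le_mul_right _ hR.le).trans h5
    have e0 : (ell (h : ℤ) 0 (emb z)).natAbs = z.1 := rfl
    have e1 : (ell (h : ℤ) 1 (emb z)).natAbs = z.2 := rfl
    have e2 : (ell (h : ℤ) 2 (emb z)).natAbs = z.1 - h * z.2 := by
      have : ell (h : ℤ) 2 (emb z) = ((z.1 - h * z.2 : ℕ) : ℤ) := by
        rw [Nat.cast_sub hle]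
        push_cast
        rfl
      rw [this, Int.natAbs_natCast]
    have e3 : (ell (h : ℤ) 3 (emb z)).natAbs = z.1 + h * z.2 := by
      have : ell (h : ℤ) 3 (emb z) = ((z.1 + h * z.2 : ℕ) : ℤ) := by
        push_cast
        rfl
      rw [this, Int.natAbs_natCast]
    rw [e0, e1, e2, e3]
  · refine ⟨Int.natCast_nonneg _, ?_, ?_, ?_⟩
    · show (z.2 : ℤ) ≤ x
      exact_mod_cast h4
    · show (R : ℤ) * z.2 ≤ z.1
      exact_mod_cast h5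
    · show (b₀ : ℤ) * z.1 ≤ a₀ * z.2
      exact_mod_cast h6

lemma plane (h R a₀ b₀ : ℕ) (hR : h < R) (hb : 1 ≤ b₀) (G : Fin 4 → ℕ → ℂ) (hG0 : G 1 0 = 0)
    (f₃ : ℕ → ℂ) (x : ℕ) :
    ∑ z ∈ reg R a₀ b₀ x, G 0 z.1 * G 1 z.2 * G 2 (z.1 - h * z.2) * G 3 (z.1 + h * z.2) *
      f₃ (z.1 ^ 2 + h ^ 2 * z.2 ^ 2) =
    ∑ z ∈ bx (a₀ + 1) x, f₃ (nn ((h : ℤ) ^ 2) z) * gg h R a₀ b₀ G x z := by
  classical
  have h1 : ∑ z ∈ reg R a₀ b₀ x, G 0 z.1 * G 1 z.2 * G 2 (z.1 - h * z.2) * G 3 (z.1 + h * z.2) *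
      f₃ (z.1 ^ 2 + h ^ 2 * z.2 ^ 2) =
      ∑ z ∈ (reg R a₀ b₀ x).map emb, f₃ (nn ((h : ℤ) ^ 2) z) * gg h R a₀ b₀ G x z := by
    rw [Finset.sum_map]
    refine Finset.sum_congr rfl fun z hz => ?_
    rw [nn_emb, gg_emb hR hz, mul_comm]
  rw [h1]
  refine Finset.sum_subset ?_ ?_
  · intro z hz
    by_contra hcon
    have h2 := gg_supp (h := h) (R := R) (a₀ := a₀) (b₀ := b₀) (G := fun _ _ => 1) hb x z hcon
    obtain ⟨y, hy, rfl⟩ := Finset.mem_map.1 hz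
    rw [gg_emb hR hy] at h2
    norm_num at h2
  · intro z hz hz'
    have : gg h R a₀ b₀ G x z = 0 := by
      unfold gg
      by_cases hRg : Rg R a₀ b₀ x z
      · rw [if_pos hRg]
        obtain ⟨k0, k1, k2, k3⟩ := (Rg_iff _ _ _ _ _).1 hRg
        rcases eq_or_lt_of_le k0 with k4 | k4
        · refine Finset.prod_eq_zero (Finset.mem_univ (1 : Fin 4)) ?_
          show G 1 (z.2).natAbs = 0
          rw [← k4]
          exact hG0
        · exfalso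
          apply hz'
          rw [Finset.mem_map]
          obtain ⟨n, hn⟩ := Int.eq_ofNat_of_zero_le k0
          have hR' : (1 : ℤ) ≤ R := by exact_mod_cast (show 1 ≤ R by omega)
          have k5 : 0 < z.1 := lt_of_lt_of_le (by nlinarith) k2
          obtain ⟨m, hm⟩ := Int.eq_ofNat_of_zero_le k5.le
          refine ⟨(m, n), ?_, Prod.ext hm.symm hn.symm⟩
          rw [hn] at k1 k2 k3 k4
          rw [hm] at k2 k3 k5
          have q1 : n ≤ x := by exact_mod_cast k1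
          have q2 : R * n ≤ m := by exact_mod_cast k2
          have q3 : b₀ * m ≤ a₀ * n := by exact_mod_cast k3
          have q4 : 0 < n := by exact_mod_cast k4
          have q5 : 0 < m := by exact_mod_cast k5
          unfold reg
          rw [Finset.mem_filter, Finset.mem_product, Finset.mem_Icc, Finset.mem_Icc]
          refine ⟨⟨⟨q5, ?_⟩, q4, q1⟩, q2, q3⟩
          calc m ≤ b₀ * m := Nat.le_mul_of_pos_left m hb
            _ ≤ a₀ * n := q3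
            _ ≤ a₀ * x := Nat.mul_le_mul_left _ q1
      · rw [if_neg hRg]
    rw [this, mul_zero]

/-- the congruence in terms of characters -/
lemma ind (V : ℕ) [NeZero V] (m n : ℕ) : ∑ χ : DirichletCharacter ℂ V, χ⁻¹ (m : ZMod V) * χ (n : ZMod V) =
    if n ≡ m [MOD V] ∧ Nat.Coprime m V then (V.totient : ℂ) else 0 := by
  by_cases hm : Nat.Coprime m V
  · have hu : IsUnit (m : ZMod V) := (ZMod.isUnit_iff_coprime m V).2 hm
    have h1 := DirichletCharacter.sum_char_inv_mul_char_eq ℂ hu (n : ZMod V)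
    have h2 : ∀ χ : DirichletCharacter ℂ V, χ⁻¹ (m : ZMod V) = χ (m : ZMod V)⁻¹ := by
      intro χ
      obtain ⟨u, hu⟩ := hu
      rw [← hu, MulChar.inv_apply, Ring.inverse_unit, ZMod.inv_coe_unit]
    simp only [h2]
    rw [h1]
    have h3 : (m : ZMod V) = (n : ZMod V) ↔ n ≡ m [MOD V] := by
      rw [ZMod.natCast_eq_natCast_iff]
      exact Nat.ModEq.comm
    by_cases h4 : n ≡ m [MOD V]
    · rw [if_pos (h3.2 h4), if_pos ⟨h4, hm⟩]
    · rw [if_neg (fun h => h4 (h3.1 h)), if_neg (fun h => h4 h.1)]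
  · rw [if_neg (fun h => hm h.2)]
    refine Finset.sum_eq_zero fun χ _ => ?_
    rw [MulChar.map_nonunit _ (fun hu => hm ((ZMod.isUnit_iff_coprime m V).1 hu)), zero_mul]

lemma cm_norm {N : ℕ} {f : ℕ → ℂ} (hf : CM N f) (n : ℕ) : ‖f n‖ ≤ 1 := by
  rcases Nat.eq_zero_or_pos n with rfl | hn
  · rw [hf.zero, norm_zero]
    exact zero_le_one
  · have h1 := congrArg norm (hf.pow n hn)
    rw [norm_pow, norm_one] at h1
    have h2 : N ≠ 0 := by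
      have := hf.pos
      omega
    exact le_of_eq ((pow_eq_one_iff_of_nonneg (norm_nonneg _) h2).1 h1)

end Pool.Agent.N130.PY

open Pool.Agent.N130.PY Pool.Agent.N912.PY Finset Filter in
/-- **the means which vanish** -/
theorem Pool.Agent.N130.PY.van (hK : S_KAT) (hG : S_GP) (hL : S_LF2) (hN : S_NPF) : S_VAN := by
  classical
  intro N f₁ f₂ f₃ hf₁ hf₂ hf₃ hPt h V R a₀ b₀ h1 hV hR hb ε hε
  have : NeZero V := ⟨by omega⟩
  have htriv : (fun n : ℕ => f₂ n * (1 : DirichletCharacter ℂ 1) (n : ZMod 1)) = f₂ := by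
    funext n
    rw [MulChar.one_apply (isUnit_of_subsingleton _), mul_one]
  have hf2m : IsMult f₂ ∧ (¬ Pt f₂ → FNP f₂) := by
    have := hN N f₂ hf₂ 1 1 le_rfl
    rw [htriv] at this
    exact this
  set G : DirichletCharacter ℂ V → Fin 4 → ℕ → ℂ := fun χ =>
    ![fun n => f₁ n * χ⁻¹ (n : ZMod V), fun n => f₁ n * χ (n : ZMod V), f₂, f₂] with hGd
  have hGm : ∀ χ i, IsMult (G χ i) := by
    intro χ
    apply forall4
    · exact (hN N f₁ hf₁ V χ⁻¹ hV).1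
    · exact (hN N f₁ hf₁ V χ hV).1
    · exact hf2m.1
    · exact hf2m.1
  have hGF : ∀ χ, ∃ i, FNP (G χ i) := by
    intro χ
    rcases hPt with hP | hP
    · exact ⟨1, (hN N f₁ hf₁ V χ hV).2 hP⟩
    · exact ⟨2, hf2m.2 hP⟩
  have hG0 : ∀ χ, G χ 1 0 = 0 := by
    intro χ
    show f₁ 0 * χ ((0 : ℕ) : ZMod V) = 0
    rw [hf₁.zero, zero_mul]
  set c : ℕ := Fintype.card (DirichletCharacter ℂ V) with hc
  have hev : ∀ᶠ x : ℕ in atTop, ∀ χ ∈ (Finset.univ : Finset (DirichletCharacter ℂ V)),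
      ‖∑ z ∈ bx (a₀ + 1) x, f₃ (nn ((h : ℤ) ^ 2) z) * gg h R a₀ b₀ (G χ) x z‖ ≤
        ε / (c + 1) * (x : ℝ) ^ 2 :=
    (Finset.eventually_all _).2 fun χ _ => core hK hG hL h R a₀ b₀ h1 hb (G χ) (hGm χ) (hGF χ) f₃
      (cm_norm hf₃) (fun m n hm hn => hf₃.mul m n hm hn) _ (by positivity)
  obtain ⟨K, hKx⟩ := eventually_atTop.1 hev
  refine ⟨K, fun x hx => ?_⟩
  have hsec : sec R a₀ b₀ V x = (reg R a₀ b₀ x).filter (fun z => z.2 ≡ z.1 [MOD V] ∧ Nat.Coprime z.1 V) := by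
    unfold sec reg
    rw [Finset.filter_filter]
    apply Finset.filter_congr
    intro z _
    tauto
  have hphi : (V.totient : ℂ) ≠ 0 := by
    exact_mod_cast (Nat.totient_pos.2 (by omega)).ne'
  have hsum : ∑ z ∈ sec R a₀ b₀ V x, f₁ z.1 * f₁ z.2 * f₂ (z.1 - h * z.2) * f₂ (z.1 + h * z.2) *
      f₃ (z.1 ^ 2 + h ^ 2 * z.2 ^ 2) =
      (V.totient : ℂ)⁻¹ * ∑ χ : DirichletCharacter ℂ V,
        ∑ z ∈ bx (a₀ + 1) x, f₃ (nn ((h : ℤ) ^ 2) z) * gg h R a₀ b₀ (G χ) x z := by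
    have e1 : ∀ χ : DirichletCharacter ℂ V,
        ∑ z ∈ bx (a₀ + 1) x, f₃ (nn ((h : ℤ) ^ 2) z) * gg h R a₀ b₀ (G χ) x z =
        ∑ z ∈ reg R a₀ b₀ x, (χ⁻¹ (z.1 : ZMod V) * χ (z.2 : ZMod V)) *
          (f₁ z.1 * f₁ z.2 * f₂ (z.1 - h * z.2) * f₂ (z.1 + h * z.2) * f₃ (z.1 ^ 2 + h ^ 2 * z.2 ^ 2)) := by
      intro χ
      rw [← plane h R a₀ b₀ hR hb (G χ) (hG0 χ) f₃ x]
      refine Finset.sum_congr rfl fun z _ => ?_
      have g0 : G χ 0 z.1 = f₁ z.1 * χ⁻¹ (z.1 : ZMod V) := rfl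
      have g1 : G χ 1 z.2 = f₁ z.2 * χ (z.2 : ZMod V) := rfl
      have g2 : G χ 2 (z.1 - h * z.2) = f₂ (z.1 - h * z.2) := rfl
      have g3 : G χ 3 (z.1 + h * z.2) = f₂ (z.1 + h * z.2) := rfl
      rw [g0, g1, g2, g3]
      ring
    simp only [e1]
    rw [Finset.sum_comm, Finset.mul_sum, hsec, Finset.sum_filter]
    refine Finset.sum_congr rfl fun z _ => ?_
    rw [← Finset.sum_mul, ind V z.1 z.2]
    split_ifs with hcond
    · rw [← mul_assoc, inv_mul_cancel₀ hphi, one_mul]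
    · rw [zero_mul, mul_zero]
  rw [hsum, norm_mul]
  have hn1 : ‖(V.totient : ℂ)⁻¹‖ ≤ 1 := by
    rw [norm_inv, Complex.norm_natCast]
    apply inv_le_one_of_one_le₀
    exact_mod_cast Nat.totient_pos.2 (show 0 < V by omega)
  have hn2 : ‖∑ χ : DirichletCharacter ℂ V,
      ∑ z ∈ bx (a₀ + 1) x, f₃ (nn ((h : ℤ) ^ 2) z) * gg h R a₀ b₀ (G χ) x z‖ ≤ c * (ε / (c + 1) * (x : ℝ) ^ 2) := by
    refine (norm_sum_le _ _).trans ?_
    refine (Finset.sum_le_sum fun χ hχ => hKx x hx χ hχ).trans ?_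
    rw [Finset.sum_const, nsmul_eq_mul, Finset.card_univ]
  have hx2 : 0 ≤ (x : ℝ) ^ 2 := by positivity
  calc ‖(V.totient : ℂ)⁻¹‖ * ‖∑ χ : DirichletCharacter ℂ V,
      ∑ z ∈ bx (a₀ + 1) x, f₃ (nn ((h : ℤ) ^ 2) z) * gg h R a₀ b₀ (G χ) x z‖
      ≤ 1 * (c * (ε / (c + 1) * (x : ℝ) ^ 2)) := mul_le_mul hn1 hn2 (norm_nonneg _) zero_le_one
    _ = (c / (c + 1)) * (ε * (x : ℝ) ^ 2) := by ring
    _ ≤ 1 * (ε * (x : ℝ) ^ 2) := by
        apply mul_le_mul_of_nonneg_right _ (by positivity)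
        rw [div_le_one (by positivity)]
        linarith
    _ = ε * (x : ℝ) ^ 2 := one_mul _
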